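import Mathlib

/-!
Hermitian forms over a field with an involution, Eichler transformations.
-/

set_option autoImplicit false
set_option linter.unusedSectionVars false

namespace MP7fQ

open Matrix

/-- The index set: `e_i`, the anisotropic part, `f_i`. -/
abbrev Ix (m r : ℕ) := Fin m ⊕ (Fin r ⊕ Fin m)

variable {F : Type*} [Field F] [StarRing F] {m r : ℕ}

/-- The functional `h · y`. -/
def dh (y : Ix m r → F) : Ix m r → F :=
  Sum.elim (fun i => star (y (Sum.inr (Sum.inr i))))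
    (Sum.elim (fun k => star (y (Sum.inr (Sum.inl k)))) (fun i => star (y (Sum.inl i))))

/-- The hermitian form. -/
def h (x y : Ix m r → F) : F := dh y ⬝ᵥ x

theorem h_eq (x y : Ix m r → F) :
    h x y = ∑ i, x (Sum.inl i) * star (y (Sum.inr (Sum.inr i))) +
      (∑ k, x (Sum.inr (Sum.inl k)) * star (y (Sum.inr (Sum.inl k))) +
      ∑ i, x (Sum.inr (Sum.inr i)) * star (y (Sum.inl i))) := by
  rw [h, dotProduct, Fintype.sum_sum_type, Fintype.sum_sum_type]
  simp only [dh, Sum.elim_inl, Sum.elim_inr, mul_comm]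

theorem star_h (x y : Ix m r → F) : star (h x y) = h y x := by
  rw [h_eq, h_eq]
  simp only [star_add, star_sum, star_mul', star_star]
  have h1 : ∀ a b c a' b' c' : F, a = c' → b = b' → c = a' → a + (b + c) = a' + (b' + c') := by
    rintro a b c _ _ _ rfl rfl rfl
    ring
  apply h1 <;> exact Finset.sum_congr rfl fun i _ => mul_comm _ _

theorem h_add_left (x x' y : Ix m r → F) : h (x + x') y = h x y + h x' y := by
  rw [h, dotProduct_add]
  rfl

theorem h_sub_left (x x' y : Ix m r → F) : h (x - x') y = h x y - h x' y := by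
  rw [h, dotProduct_sub]
  rfl

theorem h_smul_left (c : F) (x y : Ix m r → F) : h (c • x) y = c * h x y := by
  rw [h, dotProduct_smul]
  rfl

theorem h_neg_left (x y : Ix m r → F) : h (-x) y = -h x y := by
  rw [h, dotProduct_neg]
  rfl

theorem h_zero_left (y : Ix m r → F) : h 0 y = 0 := by
  rw [h, dotProduct_zero]

theorem h_add_right (x y y' : Ix m r → F) : h x (y + y') = h x y + h x y' := by
  rw [← star_h, h_add_left, star_add, star_h, star_h]

theorem h_sub_right (x y y' : Ix m r → F) : h x (y - y') = h x y - h x y' := by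
  rw [← star_h, h_sub_left, star_sub, star_h, star_h]

theorem h_smul_right (c : F) (x y : Ix m r → F) : h x (c • y) = star c * h x y := by
  rw [← star_h, h_smul_left, star_mul', star_h]

theorem h_neg_right (x y : Ix m r → F) : h x (-y) = -h x y := by
  rw [← star_h, h_neg_left, star_neg, star_h]

theorem h_zero_right (y : Ix m r → F) : h y 0 = 0 := by
  rw [← star_h, h_zero_left, star_zero]

theorem h_swap_zero {x y : Ix m r → F} (H : h x y = 0) : h y x = 0 := by
  rw [← star_h, H, star_zero]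

/-- Basis vectors. -/
def eb (i : Fin m) : Ix m r → F := Pi.single (Sum.inl i) 1

/-- Basis vectors. -/
def zb (k : Fin r) : Ix m r → F := Pi.single (Sum.inr (Sum.inl k)) 1

/-- Basis vectors. -/
def fb (i : Fin m) : Ix m r → F := Pi.single (Sum.inr (Sum.inr i)) 1

theorem h_eb_left (i : Fin m) (y : Ix m r → F) :
    h (eb i) y = star (y (Sum.inr (Sum.inr i))) := by
  rw [h, eb, dotProduct_single_one]
  rfl

theorem h_zb_left (i : Fin r) (y : Ix m r → F) :
    h (zb i) y = star (y (Sum.inr (Sum.inl i))) := by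
  rw [h, zb, dotProduct_single_one]
  rfl

theorem h_fb_left (i : Fin m) (y : Ix m r → F) : h (fb i) y = star (y (Sum.inl i)) := by
  rw [h, fb, dotProduct_single_one]
  rfl

theorem h_eb (i : Fin m) (x : Ix m r → F) : h x (eb i) = x (Sum.inr (Sum.inr i)) := by
  rw [← star_h, h_eb_left, star_star]

theorem h_zb (i : Fin r) (x : Ix m r → F) : h x (zb i) = x (Sum.inr (Sum.inl i)) := by
  rw [← star_h, h_zb_left, star_star]

theorem h_fb (i : Fin m) (x : Ix m r → F) : h x (fb i) = x (Sum.inl i) := by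
  rw [← star_h, h_fb_left, star_star]

theorem eb_e (i j : Fin m) : (eb i : Ix m r → F) (Sum.inl j) = if i = j then 1 else 0 := by
  rw [eb, Pi.single_apply]
  simp [eq_comm]

theorem eb_z (i : Fin m) (j : Fin r) : (eb i : Ix m r → F) (Sum.inr (Sum.inl j)) = 0 := by
  rw [eb, Pi.single_apply]
  simp

theorem eb_f (i j : Fin m) : (eb i : Ix m r → F) (Sum.inr (Sum.inr j)) = 0 := by
  rw [eb, Pi.single_apply]
  simp

theorem zb_e (i : Fin r) (j : Fin m) : (zb i : Ix m r → F) (Sum.inl j) = 0 := by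
  rw [zb, Pi.single_apply]
  simp

theorem zb_z (i j : Fin r) :
    (zb i : Ix m r → F) (Sum.inr (Sum.inl j)) = if i = j then 1 else 0 := by
  rw [zb, Pi.single_apply]
  simp [eq_comm]

theorem zb_f (i : Fin r) (j : Fin m) : (zb i : Ix m r → F) (Sum.inr (Sum.inr j)) = 0 := by
  rw [zb, Pi.single_apply]
  simp

theorem fb_e (i j : Fin m) : (fb i : Ix m r → F) (Sum.inl j) = 0 := by
  rw [fb, Pi.single_apply]
  simp

theorem fb_z (i : Fin m) (j : Fin r) : (fb i : Ix m r → F) (Sum.inr (Sum.inl j)) = 0 := by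
  rw [fb, Pi.single_apply]
  simp

theorem fb_f (i j : Fin m) :
    (fb i : Ix m r → F) (Sum.inr (Sum.inr j)) = if i = j then 1 else 0 := by
  rw [fb, Pi.single_apply]
  simp [eq_comm]

theorem h_ee (i j : Fin m) : h (eb i : Ix m r → F) (eb j) = 0 := by rw [h_eb, eb_f]

theorem h_ff (i j : Fin m) : h (fb i : Ix m r → F) (fb j) = 0 := by rw [h_fb, fb_e]

theorem h_ef (i j : Fin m) : h (eb i : Ix m r → F) (fb j) = if i = j then 1 else 0 := by
  rw [h_fb, eb_e]

theorem h_fe (i j : Fin m) : h (fb i : Ix m r → F) (eb j) = if i = j then 1 else 0 := by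
  rw [h_eb, fb_f]

theorem h_ez (i : Fin m) (j : Fin r) : h (eb i : Ix m r → F) (zb j) = 0 := by rw [h_zb, eb_z]

theorem h_ze (i : Fin r) (j : Fin m) : h (zb i : Ix m r → F) (eb j) = 0 := by rw [h_eb, zb_f]

theorem h_fz (i : Fin m) (j : Fin r) : h (fb i : Ix m r → F) (zb j) = 0 := by rw [h_zb, fb_z]

theorem h_zf (i : Fin r) (j : Fin m) : h (zb i : Ix m r → F) (fb j) = 0 := by rw [h_fb, zb_e]

theorem h_zz (i j : Fin r) : h (zb i : Ix m r → F) (zb j) = if i = j then 1 else 0 := by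
  rw [h_zb, zb_z]

theorem eb_ne_zero (i : Fin m) : (eb i : Ix m r → F) ≠ 0 := by
  intro H
  have := congrFun H (Sum.inl i)
  rw [eb_e, if_pos rfl] at this
  exact one_ne_zero this

theorem fb_ne_zero (i : Fin m) : (fb i : Ix m r → F) ≠ 0 := by
  intro H
  have := congrFun H (Sum.inr (Sum.inr i))
  rw [fb_f, if_pos rfl] at this
  exact one_ne_zero this

/-- Coordinates. -/
theorem eq_of_h {x y : Ix m r → F} (he : ∀ i, h x (eb i) = h y (eb i))
    (hz : ∀ i, h x (zb i) = h y (zb i)) (hf : ∀ i, h x (fb i) = h y (fb i)) : x = y := by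
  funext a
  rcases a with i | i | i
  · have := hf i
    rwa [h_fb, h_fb] at this
  · have := hz i
    rwa [h_zb, h_zb] at this
  · have := he i
    rwa [h_eb, h_eb] at this

/-- The form is non degenerate. -/
theorem exists_h_ne {v : Ix m r → F} (hv : v ≠ 0) : ∃ u, h v u ≠ 0 := by
  by_contra hcon
  push Not at hcon
  exact hv (eq_of_h (fun i => by rw [hcon, h_zero_left]) (fun i => by rw [hcon, h_zero_left])
    (fun i => by rw [hcon, h_zero_left]))

/-- The special unitary group. -/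
def SUg (m r : ℕ) (F : Type*) [Field F] [StarRing F] :
    Subgroup (SpecialLinearGroup (Ix m r) F) where
  carrier := {A | ∀ x y, h (A.1 *ᵥ x) (A.1 *ᵥ y) = h x y}
  one_mem' := fun x y => by
    change h ((1 : Matrix (Ix m r) (Ix m r) F) *ᵥ x) ((1 : Matrix (Ix m r) (Ix m r) F) *ᵥ y) = _
    rw [Matrix.one_mulVec, Matrix.one_mulVec]
  mul_mem' := by
    intro A B hA hB x y
    change h ((A.1 * B.1) *ᵥ x) ((A.1 * B.1) *ᵥ y) = _
    rw [← Matrix.mulVec_mulVec, ← Matrix.mulVec_mulVec, hA, hB]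
  inv_mem' := by
    intro A hA x y
    have h0 : A.1 * (A⁻¹).1 = 1 := congrArg Subtype.val (mul_inv_cancel A)
    have h1 : ∀ x, A.1 *ᵥ ((A⁻¹).1 *ᵥ x) = x := by
      intro x
      rw [Matrix.mulVec_mulVec, h0, Matrix.one_mulVec]
    rw [← hA, h1, h1]

theorem h_mulVec (g : SUg m r F) (x y : Ix m r → F) :
    h (g.1.1 *ᵥ x) (g.1.1 *ᵥ y) = h x y := g.2 x y

theorem su_ext {g g' : SUg m r F} (H : ∀ x, g.1.1 *ᵥ x = g'.1.1 *ᵥ x) : g = g' :=
  Subtype.ext (Subtype.ext (Matrix.mulVec_injective (funext H)))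

theorem mul_mulVec (g g' : SUg m r F) (x : Ix m r → F) :
    (g * g').1.1 *ᵥ x = g.1.1 *ᵥ (g'.1.1 *ᵥ x) := by
  rw [Matrix.mulVec_mulVec]
  rfl

theorem one_mulVec' (x : Ix m r → F) : (1 : SUg m r F).1.1 *ᵥ x = x := Matrix.one_mulVec x

theorem inv_mulVec (g : SUg m r F) (x : Ix m r → F) : (g⁻¹).1.1 *ᵥ (g.1.1 *ᵥ x) = x := by
  rw [← mul_mulVec, inv_mul_cancel, one_mulVec']

theorem mulVec_inv (g : SUg m r F) (x : Ix m r → F) : g.1.1 *ᵥ ((g⁻¹).1.1 *ᵥ x) = x := by
  rw [← mul_mulVec, mul_inv_cancel, one_mulVec']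

theorem mulVec_inj (g : SUg m r F) {x y : Ix m r → F} (H : g.1.1 *ᵥ x = g.1.1 *ᵥ y) :
    x = y := by
  rw [← inv_mulVec g x, H, inv_mulVec]

theorem mulVec_ne_zero (g : SUg m r F) {x : Ix m r → F} (H : x ≠ 0) : g.1.1 *ᵥ x ≠ 0 := by
  intro h0
  apply H
  apply mulVec_inj g
  rw [h0, Matrix.mulVec_zero]

/-- The matrix of an Eichler transformation. -/
def em (u w : Ix m r → F) (μ : F) : Matrix (Ix m r) (Ix m r) F :=
  1 + (vecMulVec w (dh u) + vecMulVec u (μ • dh u - dh w))

theorem em_mulVec (u w : Ix m r → F) (μ : F) (x : Ix m r → F) :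
    em u w μ *ᵥ x = x + h x u • w + (μ * h x u - h x w) • u := by
  rw [em, Matrix.add_mulVec, Matrix.one_mulVec, Matrix.add_mulVec, vecMulVec_mulVec,
    vecMulVec_mulVec, sub_dotProduct, smul_dotProduct, add_assoc]
  congr 2
  · ext i
    simp [h, mul_comm]
  · ext i
    simp [h, mul_comm]

theorem em_det {u w : Ix m r → F} {μ : F} (hu : h u u = 0) (hw : h w u = 0) :
    (em u w μ).det = 1 := by
  have hw' : h u w = 0 := h_swap_zero hw
  let A : Matrix (Ix m r) (Fin 2) F := (Matrix.of ![w, u])ᵀ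
  let B : Matrix (Fin 2) (Ix m r) F := Matrix.of ![dh u, μ • dh u - dh w]
  have h1 : em u w μ = 1 + A * B := by
    rw [em]
    congr 1
    ext a b
    rw [Matrix.mul_apply, Fin.sum_univ_two]
    rfl
  have h2 : B * A = !![0, 0; -h w w, 0] := by
    ext a b
    have h3 : (B * A) a b = (B a) ⬝ᵥ (![w, u] b) := rfl
    rw [h3]
    fin_cases a <;> fin_cases b
    · exact hw
    · exact hu
    · change (μ • dh u - dh w) ⬝ᵥ w = -h w w
      rw [sub_dotProduct, smul_dotProduct]
      change μ • h w u - h w w = _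
      rw [hw, smul_zero, zero_sub]
    · change (μ • dh u - dh w) ⬝ᵥ u = 0
      rw [sub_dotProduct, smul_dotProduct]
      change μ • h u u - h u w = 0
      rw [hu, hw', smul_zero, sub_zero]
  rw [h1, Matrix.det_one_add_mul_comm, h2]
  rw [Matrix.det_fin_two]
  simp

/-- The condition for Eichler transformations. -/
def EiOK (u w : Ix m r → F) (μ : F) : Prop := h u u = 0 ∧ h w u = 0 ∧ μ + star μ + h w w = 0

open Classical in
/-- Eichler transformations. -/
noncomputable def Ei (u w : Ix m r → F) (μ : F) : SUg m r F :=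
  if H : EiOK u w μ then ⟨⟨em u w μ, em_det H.1 H.2.1⟩, by
    obtain ⟨h1, h2, h3⟩ := H
    intro x y
    change h (em u w μ *ᵥ x) (em u w μ *ᵥ y) = h x y
    rw [em_mulVec, em_mulVec]
    simp only [h_add_left, h_add_right, h_smul_left, h_smul_right, h1, h2, h_swap_zero h2,
      star_sub, star_mul', star_h]
    linear_combination (h x u * h u y) * h3⟩ else 1

theorem Ei_mulVec {u w : Ix m r → F} {μ : F} (H : EiOK u w μ) (x : Ix m r → F) :
    (Ei u w μ).1.1 *ᵥ x = x + h x u • w + (μ * h x u - h x w) • u := by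
  rw [Ei, dif_pos H]
  exact em_mulVec u w μ x

theorem Ei_not {u w : Ix m r → F} {μ : F} (H : ¬ EiOK u w μ) : Ei u w μ = 1 := by
  rw [Ei, dif_neg H]

theorem EiOK.conj {u w : Ix m r → F} {μ : F} (g : SUg m r F) :
    EiOK (g.1.1 *ᵥ u) (g.1.1 *ᵥ w) μ ↔ EiOK u w μ := by
  unfold EiOK
  rw [h_mulVec, h_mulVec, h_mulVec]

theorem conj_Ei (g : SUg m r F) (u w : Ix m r → F) (μ : F) :
    g * Ei u w μ * g⁻¹ = Ei (g.1.1 *ᵥ u) (g.1.1 *ᵥ w) μ := by
  by_cases H : EiOK u w μ
  · rw [mul_inv_eq_iff_eq_mul]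
    apply su_ext
    intro x
    rw [mul_mulVec, mul_mulVec, Ei_mulVec H, Ei_mulVec ((EiOK.conj g).mpr H), h_mulVec, h_mulVec,
      Matrix.mulVec_add, Matrix.mulVec_add, Matrix.mulVec_smul, Matrix.mulVec_smul]
  · rw [Ei_not H, Ei_not (fun H' => H ((EiOK.conj g).mp H')), mul_one, mul_inv_cancel]

/-- Transvections. -/
noncomputable def T (v : Ix m r → F) (t : F) : SUg m r F := Ei v 0 t

/-- Trace zero. -/
def Tz (t : F) : Prop := t + star t = 0

theorem Tz.zero : Tz (0 : F) := by rw [Tz, star_zero, add_zero]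

theorem Tz.star_eq {t : F} (ht : Tz t) : star t = -t := by
  unfold Tz at ht
  linear_combination ht

theorem tz_iff {t : F} : Tz t ↔ star t = -t := by
  constructor
  · exact Tz.star_eq
  · intro ht
    rw [Tz, ht, add_neg_cancel]

theorem Tz.neg {t : F} (ht : Tz t) : Tz (-t) := by
  rw [tz_iff] at ht ⊢
  rw [star_neg, ht]

theorem Tz.add {s t : F} (hs : Tz s) (ht : Tz t) : Tz (s + t) := by
  rw [tz_iff] at hs ht ⊢
  rw [star_add, hs, ht]
  ring

theorem Tz.sub {s t : F} (hs : Tz s) (ht : Tz t) : Tz (s - t) := by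
  rw [sub_eq_add_neg]
  exact hs.add ht.neg

theorem Tz.inv {t : F} (ht : Tz t) : Tz t⁻¹ := by
  rw [tz_iff] at ht ⊢
  rw [star_inv₀, ht, inv_neg]

theorem Tz.mul {c t : F} (ht : Tz t) (hc : star c = c) : Tz (c * t) := by
  rw [tz_iff] at ht ⊢
  rw [star_mul', hc, ht, mul_neg]

theorem T_ok {v : Ix m r → F} (hv : h v v = 0) {t : F} (ht : Tz t) : EiOK v 0 t :=
  ⟨hv, h_zero_left _, by rw [h_zero_left, add_zero]; exact ht⟩

theorem T_mulVec {v : Ix m r → F} (hv : h v v = 0) {t : F} (ht : Tz t) (x : Ix m r → F) :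
    (T v t).1.1 *ᵥ x = x + (t * h x v) • v := by
  rw [T, Ei_mulVec (T_ok hv ht), h_zero_right, smul_zero, add_zero, sub_zero]

theorem T_zero (v : Ix m r → F) : T v 0 = 1 := by
  by_cases hv : EiOK v 0 (0 : F)
  · apply su_ext
    intro x
    rw [T_mulVec hv.1 Tz.zero, zero_mul, zero_smul, add_zero, one_mulVec']
  · exact Ei_not hv

theorem T_add {v : Ix m r → F} (hv : h v v = 0) {s t : F} (hs : Tz s) (ht : Tz t) :
    T v (s + t) = T v s * T v t := by
  apply su_ext
  intro x
  rw [mul_mulVec, T_mulVec hv (hs.add ht), T_mulVec hv ht, T_mulVec hv hs, h_add_left,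
    h_smul_left, hv, mul_zero, add_zero, add_mul, add_smul]
  abel

theorem T_neg {v : Ix m r → F} (hv : h v v = 0) {t : F} (ht : Tz t) :
    T v (-t) = (T v t)⁻¹ := by
  apply eq_inv_of_mul_eq_one_left
  rw [← T_add hv ht.neg ht, neg_add_cancel, T_zero]

theorem T_smul {v : Ix m r → F} (hv : h v v = 0) {t : F} (ht : Tz t) (c : F) :
    T (c • v) t = T v (c * star c * t) := by
  have h1 : h (c • v) (c • v) = 0 := by rw [h_smul_left, h_smul_right, hv, mul_zero, mul_zero]
  have h2 : Tz (c * star c * t) := ht.mul (by rw [star_mul', star_star, mul_comm])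
  apply su_ext
  intro x
  rw [T_mulVec h1 ht, T_mulVec hv h2, h_smul_right, smul_smul]
  congr 2
  ring

theorem conj_T (g : SUg m r F) (v : Ix m r → F) (t : F) :
    g * T v t * g⁻¹ = T (g.1.1 *ᵥ v) t := by
  rw [T, conj_Ei, Matrix.mulVec_zero]
  rfl

theorem T_comm {v w : Ix m r → F} (hv : h v v = 0) (H : h v w = 0) {s : F} (hs : Tz s) (t : F) :
    T v s * T w t = T w t * T v s := by
  have h1 := conj_T (T v s) w t
  rw [T_mulVec hv hs, h_swap_zero H, mul_zero, zero_smul, add_zero] at h1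
  exact mul_inv_eq_iff_eq_mul.mp h1

/-- A transvection determines its centre and its parameter. -/
theorem T_eq {v w : Ix m r → F} (hv : v ≠ 0) (hvv : h v v = 0) (hww : h w w = 0) {s t : F}
    (hs : s ≠ 0) (hsz : Tz s) (htz : Tz t) (H : T v s = T w t) :
    ∃ c : F, c ≠ 0 ∧ v = c • w ∧ t = c * star c * s := by
  obtain ⟨u, hu⟩ := exists_h_ne hv
  have h1 : ∀ x, (s * h x v) • v = (t * h x w) • w := by
    intro x
    have h2 : (T v s).1.1 *ᵥ x = (T w t).1.1 *ᵥ x := by rw [H]
    rw [T_mulVec hvv hsz, T_mulVec hww htz] at h2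
    exact add_left_cancel h2
  have hu' : h u v ≠ 0 := fun h0 => hu (h_swap_zero h0)
  have h2 : v = ((s * h u v)⁻¹ * (t * h u w)) • w := by
    rw [mul_smul, ← h1, smul_smul, inv_mul_cancel₀ (mul_ne_zero hs hu'), one_smul]
  set c := (s * h u v)⁻¹ * (t * h u w) with hc
  have hc0 : c ≠ 0 := by
    intro h0
    rw [h0, zero_smul] at h2
    exact hv h2
  refine ⟨c, hc0, h2, ?_⟩
  have hw : w ≠ 0 := by
    rintro rfl
    rw [smul_zero] at h2
    exact hv h2
  have h3 := h1 u
  rw [h2, h_smul_right, smul_smul] at h3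
  have h4 : (s * (star c * h u w) * c - t * h u w) • w = 0 := by
    rw [sub_smul, h3, sub_self]
  have h5 := (smul_eq_zero.mp h4).resolve_right hw
  have h6 : h u w ≠ 0 := by
    intro h0
    rw [h2, h_smul_right, h0, mul_zero] at hu'
    exact hu' rfl
  apply mul_right_cancel₀ h6
  linear_combination -h5

theorem T_ne_one {v : Ix m r → F} (hv : v ≠ 0) (hvv : h v v = 0) {t : F} (ht : t ≠ 0)
    (htz : Tz t) : T v t ≠ 1 := by
  intro H
  rw [← T_zero v] at H
  obtain ⟨c, hc0, -, hc⟩ := T_eq hv hvv hvv ht htz Tz.zero H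
  have hc1 : star c ≠ 0 := by rwa [Ne, star_eq_zero]
  exact mul_ne_zero (mul_ne_zero hc0 hc1) ht hc.symm

theorem T_inj {a : Ix m r → F} (ha : a ≠ 0) (haa : h a a = 0) {s t : F} (hs : Tz s) (ht : Tz t)
    (H : T a s = T a t) : s = t := by
  by_contra hne
  have h1 : T a (s - t) = 1 := by
    rw [sub_eq_add_neg, T_add haa hs ht.neg, T_neg haa ht, H, mul_inv_cancel]
  exact T_ne_one ha haa (sub_ne_zero.mpr hne) (hs.sub ht) h1

end MP7fQ
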