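import Pool.Agent.Lib.MP_7f581e_ntQ.Trans
import Pool.Agent.Lib.MP_7f581e_ntP.Root

/-!
The projective special unitary group; automorphisms map transvections to transvections.
-/

set_option autoImplicit false
set_option linter.unusedSectionVars false
set_option linter.unusedSimpArgs false

namespace MP7fQ

open Matrix

variable {F : Type*} [Field F] [StarRing F] {m r : ℕ}

/-- Central elements are scalar. -/
theorem scalar_of_center (D : Inv2 F) (h2 : 2 ≤ m) {g : SUg m r F}
    (hg : g ∈ Subgroup.center (SUg m r F)) :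
    ∃ c : F, g.1.1 = c • (1 : Matrix (Ix m r) (Ix m r) F) := by
  have h1 : ∀ v : Ix m r → F, v ≠ 0 → h v v = 0 → ∃ c : F, c ≠ 0 ∧ g.1.1 *ᵥ v = c • v := by
    intro v hv hvv
    have h2 := conj_T g v D.ε
    have h3 : g * T v D.ε * g⁻¹ = T v D.ε := by
      rw [← Subgroup.mem_center_iff.mp hg (T v D.ε), mul_inv_cancel_right]
    rw [h3] at h2
    obtain ⟨c, hc0, hc, -⟩ := T_eq (mulVec_ne_zero g hv) (by rw [h_mulVec, hvv]) hvv D.hε0 D.hε
      D.hε h2.symm
    exact ⟨c, hc0, hc⟩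
  -- two orthogonal independent isotropic vectors have the same eigenvalue
  have h3 : ∀ (v w : Ix m r → F) (a b : F), h v v = 0 → h w w = 0 → h v w = 0 →
      (∃ u, h v u = 1 ∧ h w u = 0) → (∃ u, h w u = 1 ∧ h v u = 0) →
      g.1.1 *ᵥ v = a • v → g.1.1 *ᵥ w = b • w → a = b := by
    rintro v w a b hvv hww hvw ⟨u, hu1, hu2⟩ ⟨u', hu1', hu2'⟩ hv hw
    have hne : v + w ≠ 0 := by
      intro h0
      have := congrArg (fun x => h x u) h0
      simp only [h_add_left, hu1, hu2, h_zero_left, add_zero] at this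
      exact one_ne_zero this
    obtain ⟨c, -, hc⟩ := h1 (v + w) hne (by
      rw [h_add_left, h_add_right, h_add_right, hvv, hww, hvw, h_swap_zero hvw]; ring)
    rw [Matrix.mulVec_add, hv, hw] at hc
    have e1 := congrArg (fun x => h x u) hc
    have e2 := congrArg (fun x => h x u') hc
    simp only [h_add_left, h_smul_left, hu1, hu2, hu1', hu2', mul_one, mul_zero, add_zero,
      zero_add] at e1 e2
    rw [e1, e2]
  obtain ⟨o, ho⟩ : ∃ o : Fin m, o = ⟨0, by omega⟩ := ⟨_, rfl⟩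
  obtain ⟨i, hio⟩ := exists_other h2 o
  obtain ⟨c, hc0, hc⟩ := h1 _ (eb_ne_zero o) (h_ee o o)
  have hee : ∀ j, g.1.1 *ᵥ eb j = c • eb j := by
    intro j
    by_cases hj : j = o
    · rw [hj, hc]
    · obtain ⟨d, -, hd⟩ := h1 _ (eb_ne_zero j) (h_ee j j)
      have := h3 (eb o) (eb j) c d (h_ee _ _) (h_ee _ _) (h_ee _ _)
        ⟨fb o, by rw [h_ef, if_pos rfl], by rw [h_ef, if_neg hj]⟩
        ⟨fb j, by rw [h_ef, if_pos rfl], by rw [h_ef, if_neg (Ne.symm hj)]⟩ hc hd
      rw [hd, this]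
  have hff : ∀ j, g.1.1 *ᵥ fb j = c • fb j := by
    intro j
    obtain ⟨k, hk⟩ := exists_other h2 j
    obtain ⟨d, -, hd⟩ := h1 _ (fb_ne_zero j) (h_ff j j)
    have := h3 (eb k) (fb j) c d (h_ee _ _) (h_ff _ _) (by rw [h_ef, if_neg hk])
      ⟨fb k, by rw [h_ef, if_pos rfl], by rw [h_ff]⟩
      ⟨eb j, by rw [h_fe, if_pos rfl], by rw [h_ee]⟩ (hee k) hd
    rw [hd, this]
  have hzz : ∀ k, g.1.1 *ᵥ zb k = c • zb k := by
    intro k
    set w : Ix m r → F := eb o + zb k + (-D.c₀) • fb o with hw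
    have hww : h w w = 0 := by
      rw [hw]
      simp only [h_add_left, h_add_right, h_smul_left, h_smul_right, h_ee, h_ez, h_ef, h_ze, h_zz,
        h_zf, h_fe, h_fz, h_ff, if_true, mul_zero, mul_one, add_zero, zero_add, star_neg]
      linear_combination -D.hc₀
    have hw0 : w ≠ 0 := by
      intro h0
      have := congrFun h0 (Sum.inl o)
      rw [hw, Pi.add_apply, Pi.add_apply, Pi.smul_apply, eb_e, zb_e, fb_e, if_pos rfl, smul_zero,
        add_zero, add_zero] at this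
      exact one_ne_zero this
    obtain ⟨d, -, hd⟩ := h1 w hw0 hww
    have h4 : h (g.1.1 *ᵥ zb k) (eb o) = 0 := by
      have h5 : h (g.1.1 *ᵥ zb k) (g.1.1 *ᵥ eb o) = 0 := by rw [h_mulVec, h_ze]
      rw [hc, h_smul_right] at h5
      exact (mul_eq_zero.mp h5).resolve_left (fun h0 => hc0 (star_eq_zero.mp h0))
    rw [hw, Matrix.mulVec_add, Matrix.mulVec_add, Matrix.mulVec_smul, hc, hff] at hd
    have h5 := congrArg (fun x => h x (eb o)) hd
    simp only [h_add_left, h_smul_left, h_ee, h_ze, h_fe, h4, if_true, mul_zero, mul_one, add_zero,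
      zero_add] at h5
    have hc₀ : D.c₀ ≠ 0 := by
      intro h0
      have := D.hc₀
      rw [h0, star_zero, add_zero] at this
      exact zero_ne_one this
    have h6 : c = d := by
      apply mul_left_cancel₀ (neg_ne_zero.mpr hc₀)
      linear_combination h5
    rw [← h6] at hd
    have h7 : c • eb o + g.1.1 *ᵥ zb k + (-D.c₀) • c • fb o =
        c • eb o + c • zb k + (-D.c₀) • c • (fb o : Ix m r → F) := by
      rw [hd]; module
    exact add_left_cancel (add_right_cancel h7)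
  refine ⟨c, ?_⟩
  ext a b
  rw [apply_eq, Matrix.smul_apply, Matrix.one_apply, smul_eq_mul]
  have h8 : ∀ b : Ix m r, g.1.1 *ᵥ Pi.single b 1 = c • Pi.single b 1 := by
    intro b
    rcases b with b | b | b
    · exact hee b
    · exact hzz b
    · exact hff b
  rw [h8, Pi.smul_apply, Pi.single_apply, smul_eq_mul]

theorem center_of_scalar {g : SUg m r F} {c : F}
    (H : g.1.1 = c • (1 : Matrix (Ix m r) (Ix m r) F)) :
    g ∈ Subgroup.center (SUg m r F) := by
  rw [Subgroup.mem_center_iff]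
  intro x
  apply Subtype.ext
  apply Subtype.ext
  change x.1.1 * g.1.1 = g.1.1 * x.1.1
  rw [H, Matrix.mul_smul, Matrix.smul_mul, mul_one, one_mul]

/-- The projective special unitary group. -/
abbrev PSU (m r : ℕ) (F : Type*) [Field F] [StarRing F] :=
  SUg m r F ⧸ Subgroup.center (SUg m r F)

/-- The projection. -/
def mkU (m r : ℕ) (F : Type*) [Field F] [StarRing F] : SUg m r F →* PSU m r F :=
  QuotientGroup.mk' _

theorem mkU_surj : Function.Surjective (mkU m r F) := QuotientGroup.mk'_surjective _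

theorem mkU_eq_one {g : SUg m r F} : mkU m r F g = 1 ↔ g ∈ Subgroup.center (SUg m r F) :=
  QuotientGroup.eq_one_iff g

theorem mkU_eq (D : Inv2 F) (h2 : 2 ≤ m) {g g' : SUg m r F} (H : mkU m r F g = mkU m r F g') :
    ∃ c : F, g.1.1 = c • g'.1.1 := by
  have h1 : g * g'⁻¹ ∈ Subgroup.center (SUg m r F) := by
    rw [← mkU_eq_one, map_mul, map_inv, H, mul_inv_cancel]
  obtain ⟨c, hc⟩ := scalar_of_center D h2 h1
  refine ⟨c, ?_⟩
  have h2 : g.1.1 = (g * g'⁻¹).1.1 * g'.1.1 := by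
    change g.1.1 = (g * g'⁻¹ * g').1.1
    rw [inv_mul_cancel_right]
  rw [h2, hc, Matrix.smul_mul, one_mul]

theorem mkU_eq_of_smul {g g' : SUg m r F} {c : F} (H : g.1.1 = c • g'.1.1) :
    mkU m r F g = mkU m r F g' := by
  rw [← mul_inv_eq_one, ← map_inv, ← map_mul, mkU_eq_one]
  apply center_of_scalar (c := c)
  change g.1.1 * (g'⁻¹).1.1 = _
  rw [H, Matrix.smul_mul]
  congr 1
  change (g' * g'⁻¹).1.1 = 1
  rw [mul_inv_cancel]
  rfl

theorem uu_center [Finite F] (D : Inv2 F) (h2 : 2 ≤ m) {A : SUg m r F} (hA : A ∈ uu m r F)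
    (hc : A ∈ Subgroup.center (SUg m r F)) : A = 1 := by
  obtain ⟨c, hc⟩ := scalar_of_center D h2 hc
  have h1 := mem_uu.mp hA (Sum.inl ⟨0, by omega⟩) (Sum.inl ⟨0, by omega⟩) le_rfl
  rw [if_pos rfl, hc, Matrix.smul_apply, Matrix.one_apply_eq, smul_eq_mul, mul_one] at h1
  rw [h1, one_smul] at hc
  exact Subtype.ext (Subtype.ext hc)

theorem finite_PSU [Finite F] : Finite (PSU m r F) := Finite.of_surjective _ mkU_surj

/-- Every automorphism of `PSU` maps the highest root group to a conjugate of itself. -/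
theorem exists_conj_T [Finite F] (D : Inv2 F) (hr : r ≤ 1) (h2 : 2 ≤ m)
    (α : PSU m r F ≃* PSU m r F) :
    ∃ g : SUg m r F, ∀ t, Tz t → ∃ s, Tz s ∧ α (mkU m r F (T (eb ⟨0, by omega⟩) t)) =
      mkU m r F (g * T (eb ⟨0, by omega⟩) s * g⁻¹) := by
  obtain ⟨p, hp⟩ := CharP.exists F
  have hpp : Fact p.Prime := ⟨CharP.char_is_prime F p⟩
  have := finite_PSU (F := F) (m := m) (r := r)
  obtain ⟨P, hP⟩ := exists_sylow (F := F) (m := m) (p := p) hr D
  obtain ⟨g', hg'⟩ := MP7fP.exists_conj_sylow (p := p) ((uu m r F).map (mkU m r F))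
    (by rw [← hP]; exact P.isPGroup'.map _)
    (by
      intro hd
      have h5 : ¬ p ∣ (uu m r F).index := by
        rw [← hP]
        exact P.not_dvd_index
      exact h5 (hd.trans (Subgroup.index_map_dvd (uu m r F) mkU_surj))) α
  obtain ⟨g, rfl⟩ := mkU_surj g'
  refine ⟨g, fun t htz => ?_⟩
  set x := α (mkU m r F (T (eb ⟨0, by omega⟩) t)) with hx
  have h1 : (mkU m r F g)⁻¹ * x * mkU m r F g ∈ (uu m r F).map (mkU m r F) :=
    (hg' _).mp ⟨_, T_mem_uu _ htz, rfl⟩
  obtain ⟨z, hz, hz1⟩ := h1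
  have hcom : ∀ A ∈ uu m r F, z * A * z⁻¹ = A := by
    intro A hA
    have h2' : α.symm (mkU m r F g * mkU m r F A * (mkU m r F g)⁻¹) ∈
        (uu m r F).map (mkU m r F) := by
      rw [hg', MulEquiv.apply_symm_apply]
      have : (mkU m r F g)⁻¹ * (mkU m r F g * mkU m r F A * (mkU m r F g)⁻¹) * mkU m r F g =
          mkU m r F A := by
        group
      rw [this]
      exact ⟨A, hA, rfl⟩
    obtain ⟨B, hB, hB1⟩ := h2'
    have h3 := congrArg (fun X => α (mkU m r F X)) (T_centre_uu (by omega) hB t)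
    simp only [map_mul, map_inv, hB1, MulEquiv.apply_symm_apply] at h3
    rw [← hx] at h3
    have h5 : mkU m r F (z * A * z⁻¹ * A⁻¹) = 1 := by
      simp only [map_mul, map_inv, hz1]
      set a := mkU m r F A
      set b := mkU m r F g
      calc b⁻¹ * x * b * a * (b⁻¹ * x * b)⁻¹ * a⁻¹ =
          b⁻¹ * x * (b * a * b⁻¹ * x * (b * a * b⁻¹)⁻¹)⁻¹ * b := by group
        _ = b⁻¹ * x * x⁻¹ * b := by rw [h3]
        _ = 1 := by group
    have h6 : z * A * z⁻¹ * A⁻¹ = 1 := by
      apply uu_center D h2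
      · exact mul_mem (mul_mem (mul_mem hz hA) (inv_mem hz)) (inv_mem hA)
      · rw [← mkU_eq_one, h5]
    exact mul_inv_eq_one.mp h6
  obtain ⟨s, hs, hzs⟩ := centre_uu hr D h2 hz hcom
  refine ⟨s, hs, ?_⟩
  rw [← hzs, map_mul, map_mul, hz1, map_inv]
  group

end MP7fQ
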