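import Pool.Agent.Lib.MP_7f581e_ntQ.Unip

/-!
Transitivity of the unitary group on isotropic vectors, the centre.
-/

set_option autoImplicit false
set_option linter.unusedSectionVars false
set_option linter.unusedSimpArgs false

namespace MP7fQ

open Matrix

variable {F : Type*} [Field F] [StarRing F] {m r : ℕ}

/-- Two vectors in the same orbit. -/
def Rch (H : Subgroup (SUg m r F)) (x y : Ix m r → F) : Prop := ∃ g ∈ H, g.1.1 *ᵥ x = y

theorem Rch.trans {H : Subgroup (SUg m r F)} {x y z : Ix m r → F} (h : Rch H x y)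
    (h' : Rch H y z) : Rch H x z := by
  obtain ⟨g, hg, rfl⟩ := h
  obtain ⟨g', hg', rfl⟩ := h'
  exact ⟨g' * g, mul_mem hg' hg, mul_mulVec _ _ _⟩

theorem Rch.refl (H : Subgroup (SUg m r F)) (x : Ix m r → F) : Rch H x x :=
  ⟨1, one_mem _, one_mulVec' x⟩

theorem Rch.iso {H : Subgroup (SUg m r F)} {x y : Ix m r → F} (H' : Rch H x y)
    (hx : h x x = 0) : h y y = 0 := by
  obtain ⟨g, hg, rfl⟩ := H'
  rw [h_mulVec, hx]

theorem Rch.ne {H : Subgroup (SUg m r F)} {x y : Ix m r → F} (H' : Rch H x y)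
    (hx : x ≠ 0) : y ≠ 0 := by
  obtain ⟨g, hg, rfl⟩ := H'
  exact mulVec_ne_zero g hx

theorem rch_Ei {H : Subgroup (SUg m r F)} {u w : Ix m r → F} {μ : F} (hok : EiOK u w μ)
    (hH : Ei u w μ ∈ H) (x : Ix m r → F) :
    Rch H x (x + h x u • w + (μ * h x u - h x w) • u) := ⟨_, hH, Ei_mulVec hok x⟩

theorem rch_T {H : Subgroup (SUg m r F)} {v : Ix m r → F} (hv : h v v = 0) {t : F} (ht : Tz t)
    (hH : T v t ∈ H) (x : Ix m r → F) : Rch H x (x + (t * h x v) • v) := ⟨_, hH, T_mulVec hv ht x⟩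

theorem ok_ee (o i : Fin m) (c : F) : EiOK (eb o : Ix m r → F) (c • eb i) 0 :=
  ⟨h_ee o o, by rw [h_smul_left, h_ee, mul_zero], by
    rw [h_smul_left, h_smul_right, h_ee, star_zero]; ring⟩

theorem ok_ef {o i : Fin m} (hio : i ≠ o) (c : F) : EiOK (eb o : Ix m r → F) (c • fb i) 0 :=
  ⟨h_ee o o, by rw [h_smul_left, h_fe, if_neg hio, mul_zero], by
    rw [h_smul_left, h_smul_right, h_ff, star_zero]; ring⟩

theorem ok_fe {o i : Fin m} (hio : i ≠ o) (c : F) : EiOK (fb o : Ix m r → F) (c • eb i) 0 :=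
  ⟨h_ff o o, by rw [h_smul_left, h_ef, if_neg hio, mul_zero], by
    rw [h_smul_left, h_smul_right, h_ee, star_zero]; ring⟩

theorem ok_ff (o i : Fin m) (c : F) : EiOK (fb o : Ix m r → F) (c • fb i) 0 :=
  ⟨h_ff o o, by rw [h_smul_left, h_ff, mul_zero], by
    rw [h_smul_left, h_smul_right, h_ff, star_zero]; ring⟩

/-- A subgroup with enough root elements. -/
structure Mv (o : Fin m) (H : Subgroup (SUg m r F)) : Prop where
  he : ∀ t, Tz t → T (eb o) t ∈ H
  hf : ∀ t, Tz t → T (fb o) t ∈ H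
  hee : ∀ i, i ≠ o → ∀ c : F, Ei (eb o) (c • eb i) 0 ∈ H
  hef : ∀ i, i ≠ o → ∀ c : F, Ei (eb o) (c • fb i) 0 ∈ H
  hfe : ∀ i, i ≠ o → ∀ c : F, Ei (fb o) (c • eb i) 0 ∈ H
  hff : ∀ i, i ≠ o → ∀ c : F, Ei (fb o) (c • fb i) 0 ∈ H

variable {o : Fin m} {H : Subgroup (SUg m r F)}

theorem rch_fo (D : Inv2 F) (hr : r ≤ 1) (M : Mv o H) {x : Ix m r → F} (hx : x ≠ 0)
    (hxx : h x x = 0) : ∃ y, Rch H x y ∧ y (Sum.inr (Sum.inr o)) ≠ 0 ∧
      ∀ k, y (Sum.inr (Sum.inl k)) = x (Sum.inr (Sum.inl k)) := by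
  by_cases h1 : x (Sum.inr (Sum.inr o)) = 0
  swap
  · exact ⟨x, Rch.refl H x, h1, fun _ => rfl⟩
  by_cases h2 : x (Sum.inl o) = 0
  swap
  · refine ⟨_, rch_T (h_ff o o) D.hε (M.hf _ D.hε) x, ?_, fun k => ?_⟩
    · rw [Pi.add_apply, Pi.smul_apply, fb_f, if_pos rfl, h_fb, h1, zero_add, smul_eq_mul, mul_one]
      exact mul_ne_zero D.hε0 h2
    · rw [Pi.add_apply, Pi.smul_apply, fb_z, smul_zero, add_zero]
  by_cases h3 : ∃ i, x (Sum.inl i) ≠ 0
  · obtain ⟨i, hi⟩ := h3
    have hio : i ≠ o := by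
      rintro rfl
      exact hi h2
    refine ⟨_, rch_Ei (ok_ff o i 1) (M.hff i hio 1) x, ?_, fun k => ?_⟩
    · simp only [Pi.add_apply, Pi.smul_apply, h1, h_fb, h2, one_smul, fb_f, if_true,
        zero_add, zero_mul, zero_sub, smul_eq_mul, mul_one]
      exact neg_ne_zero.mpr hi
    · simp only [Pi.add_apply, Pi.smul_apply, fb_z, smul_zero, add_zero]
  by_cases h4 : ∃ i, x (Sum.inr (Sum.inr i)) ≠ 0
  · obtain ⟨i, hi⟩ := h4
    have hio : i ≠ o := by
      rintro rfl
      exact hi h1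
    refine ⟨_, rch_Ei (ok_fe hio 1) (M.hfe i hio 1) x, ?_, fun k => ?_⟩
    · simp only [Pi.add_apply, Pi.smul_apply, h1, h_fb, h_eb, h2, one_smul, fb_f, if_true,
        zero_add, zero_mul, zero_sub, smul_eq_mul, mul_one]
      exact neg_ne_zero.mpr hi
    · simp only [Pi.add_apply, Pi.smul_apply, eb_z, fb_z, smul_zero, add_zero]
  exfalso
  push Not at h3 h4
  apply hx
  funext a
  rcases a with i | k | i
  · exact h3 i
  · have hsum : h x x = ∑ k, x (Sum.inr (Sum.inl k)) * star (x (Sum.inr (Sum.inl k))) := by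
      rw [h_eq, Finset.sum_eq_zero, zero_add, add_eq_left, Finset.sum_eq_zero]
      · intro i _
        rw [h4, zero_mul]
      · intro i _
        rw [h3, zero_mul]
    have hk := k.2
    have h5 : ∑ k, x (Sum.inr (Sum.inl k)) * star (x (Sum.inr (Sum.inl k))) =
        x (Sum.inr (Sum.inl k)) * star (x (Sum.inr (Sum.inl k))) := by
      apply Finset.sum_eq_single_of_mem k (Finset.mem_univ _)
      intro j _ hj
      exact absurd (Fin.ext (by have := j.2; omega)) hj
    rw [hxx, h5] at hsum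
    rcases mul_eq_zero.mp hsum.symm with h6 | h6
    · exact h6
    · exact star_eq_zero.mp h6
  · exact h4 i

theorem rch_kill (M : Mv o H) {x : Ix m r → F} (hx : x (Sum.inr (Sum.inr o)) ≠ 0) {i : Fin m}
    (hio : i ≠ o) : ∃ y, Rch H x y ∧ y (Sum.inr (Sum.inr o)) = x (Sum.inr (Sum.inr o)) ∧
      y (Sum.inl i) = 0 ∧ y (Sum.inr (Sum.inr i)) = 0 ∧
      (∀ j, j ≠ o → j ≠ i → y (Sum.inl j) = x (Sum.inl j) ∧
        y (Sum.inr (Sum.inr j)) = x (Sum.inr (Sum.inr j))) ∧
      ∀ k, y (Sum.inr (Sum.inl k)) = x (Sum.inr (Sum.inl k)) := by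
  obtain ⟨c, hc⟩ : ∃ c, c = -x (Sum.inl i) / x (Sum.inr (Sum.inr o)) := ⟨_, rfl⟩
  obtain ⟨y, hy⟩ : ∃ y, y = x + h x (eb o) • (c • eb i) +
    (0 * h x (eb o) - h x (c • eb i)) • eb o := ⟨_, rfl⟩
  have hxy : Rch H x y := by
    rw [hy]
    exact rch_Ei (ok_ee o i c) (M.hee i hio c) x
  have hyf : ∀ j, y (Sum.inr (Sum.inr j)) = x (Sum.inr (Sum.inr j)) := by
    intro j
    rw [hy, Pi.add_apply, Pi.add_apply, Pi.smul_apply, Pi.smul_apply, Pi.smul_apply, eb_f, eb_f,
      smul_zero, smul_zero, smul_zero, add_zero, add_zero]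
  have hye : ∀ j, j ≠ o → y (Sum.inl j) =
      x (Sum.inl j) + x (Sum.inr (Sum.inr o)) * (c * if i = j then 1 else 0) := by
    intro j hj
    rw [hy, Pi.add_apply, Pi.add_apply, Pi.smul_apply, Pi.smul_apply, Pi.smul_apply, eb_e, eb_e,
      if_neg (Ne.symm hj), smul_zero, add_zero, h_eb, smul_eq_mul, smul_eq_mul]
  have hyi : y (Sum.inl i) = 0 := by
    rw [hye i hio, if_pos rfl, hc, mul_one, mul_div_cancel₀ _ hx, add_neg_cancel]
  obtain ⟨d, hd⟩ : ∃ d, d = -y (Sum.inr (Sum.inr i)) / y (Sum.inr (Sum.inr o)) := ⟨_, rfl⟩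
  have hyo : y (Sum.inr (Sum.inr o)) ≠ 0 := by rw [hyf]; exact hx
  obtain ⟨z, hz⟩ : ∃ z, z = y + h y (eb o) • (d • fb i) +
    (0 * h y (eb o) - h y (d • fb i)) • eb o := ⟨_, rfl⟩
  have hyz : Rch H y z := by
    rw [hz]
    exact rch_Ei (ok_ef hio d) (M.hef i hio d) y
  have hzf : ∀ j, z (Sum.inr (Sum.inr j)) =
      y (Sum.inr (Sum.inr j)) + y (Sum.inr (Sum.inr o)) * (d * if i = j then 1 else 0) := by
    intro j
    rw [hz, Pi.add_apply, Pi.add_apply, Pi.smul_apply, Pi.smul_apply, Pi.smul_apply, eb_f, fb_f,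
      smul_zero, add_zero, h_eb, smul_eq_mul, smul_eq_mul]
  have hze : ∀ j, j ≠ o → z (Sum.inl j) = y (Sum.inl j) := by
    intro j hj
    rw [hz, Pi.add_apply, Pi.add_apply, Pi.smul_apply, Pi.smul_apply, Pi.smul_apply, eb_e, fb_e,
      if_neg (Ne.symm hj), smul_zero, smul_zero, smul_zero, add_zero, add_zero]
  refine ⟨z, hxy.trans hyz, ?_, ?_, ?_, ?_, ?_⟩
  · rw [hzf, if_neg hio, mul_zero, mul_zero, add_zero, hyf]
  · rw [hze i hio, hyi]
  · rw [hzf, if_pos rfl, hd, mul_one, mul_div_cancel₀ _ hyo, add_neg_cancel]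
  · intro j hj hji
    constructor
    · rw [hze j hj, hye j hj, if_neg (Ne.symm hji), mul_zero, mul_zero, add_zero]
    · rw [hzf, if_neg (Ne.symm hji), mul_zero, mul_zero, add_zero, hyf]
  · intro k
    rw [hz, hy]
    simp only [Pi.add_apply, Pi.smul_apply, eb_z, fb_z, smul_zero, add_zero]

theorem rch_red (D : Inv2 F) (hr : r ≤ 1) (M : Mv o H) {x : Ix m r → F} (hx : x ≠ 0)
    (hxx : h x x = 0) : ∃ y, Rch H x y ∧ y (Sum.inr (Sum.inr o)) ≠ 0 ∧
      (∀ i, i ≠ o → y (Sum.inl i) = 0 ∧ y (Sum.inr (Sum.inr i)) = 0) ∧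
      ∀ k, y (Sum.inr (Sum.inl k)) = x (Sum.inr (Sum.inl k)) := by
  obtain ⟨y, hy, hyo, hyz⟩ := rch_fo D hr M hx hxx
  have h1 : ∀ S : Finset (Fin m), o ∉ S → ∃ z, Rch H y z ∧ z (Sum.inr (Sum.inr o)) ≠ 0 ∧
      (∀ i ∈ S, z (Sum.inl i) = 0 ∧ z (Sum.inr (Sum.inr i)) = 0) ∧
      ∀ k, z (Sum.inr (Sum.inl k)) = y (Sum.inr (Sum.inl k)) := by
    intro S
    induction S using Finset.induction_on with
    | empty => exact fun _ => ⟨y, Rch.refl H y, hyo,
        fun i hi => absurd hi (Finset.notMem_empty i), fun _ => rfl⟩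
    | insert a S ha ih =>
      intro ho
      rw [Finset.mem_insert, not_or] at ho
      obtain ⟨z, hz, hzo, hzS, hzz⟩ := ih ho.2
      obtain ⟨z', hz', hzo', hzl, hzr, hzj, hzz'⟩ := rch_kill M hzo (Ne.symm ho.1)
      refine ⟨z', hz.trans hz', by rw [hzo']; exact hzo, ?_, fun k => by rw [hzz', hzz]⟩
      intro i hi
      rcases Finset.mem_insert.mp hi with rfl | hi'
      · exact ⟨hzl, hzr⟩
      · have hio : i ≠ o := by
          rintro rfl
          exact ho.2 hi'
        have hia : i ≠ a := by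
          rintro rfl
          exact ha hi'
        rw [(hzj i hio hia).1, (hzj i hio hia).2]
        exact hzS i hi'
  obtain ⟨z, hz, hzo, hzS, hzz⟩ := h1 (Finset.univ.erase o) (Finset.notMem_erase o _)
  exact ⟨z, hy.trans hz, hzo, fun i hi => hzS i (Finset.mem_erase.mpr ⟨hi, Finset.mem_univ _⟩),
    fun k => by rw [hzz, hyz]⟩

theorem rch_scale (M : Mv o H) {i : Fin m} (hio : i ≠ o) {c : F} (hc : c ≠ 0) :
    Rch H (c • eb o) (eb o) := by
  have h1 : Rch H (c • eb o) (c • eb o + eb i) := by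
    have := rch_Ei (ok_fe hio c⁻¹) (M.hfe i hio c⁻¹) (c • eb o)
    simp only [h_smul_left, h_smul_right, h_ef, h_ee, if_true, mul_zero, zero_mul, sub_self,
      zero_smul, add_zero, mul_one, smul_smul, mul_inv_cancel₀ hc, one_smul] at this
    exact this
  have h2 : Rch H (c • eb o + eb i) (eb o + eb i) := by
    have := rch_Ei (ok_ef hio (star (c - 1))) (M.hef i hio (star (c - 1))) (c • eb o + eb i)
    simp only [h_add_left, h_smul_left, h_smul_right, h_ef, h_ee, if_true, if_neg hio.symm,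
      mul_zero, zero_mul, zero_smul, add_zero, zero_add, mul_one, star_star, zero_sub] at this
    have h3 : c • eb o + eb i + -(c - 1) • eb o = (eb o + eb i : Ix m r → F) := by module
    rwa [h3] at this
  have h4 : Rch H (eb o + eb i) (eb o) := by
    have := rch_Ei (ok_fe hio (-1)) (M.hfe i hio (-1)) (eb o + eb i)
    simp only [h_add_left, h_smul_right, h_ef, h_ee, if_true, if_neg hio,
      mul_zero, zero_mul, zero_smul, add_zero, sub_self, one_smul] at this
    have h3 : eb o + eb i + (-1 : F) • eb i = (eb o : Ix m r → F) := by module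
    rwa [h3] at this
  exact h1.trans (h2.trans h4)

theorem rch_plane (D : Inv2 F) (M : Mv o H) {i : Fin m} (hio : i ≠ o) {a b : F} (hb : b ≠ 0)
    (hab : a * star b + b * star a = 0) : Rch H (a • eb o + b • fb o) (eb o) := by
  have hsb : star b ≠ 0 := by rwa [Ne, star_eq_zero]
  have ht : Tz (-a / b) := by
    rw [Tz, star_div₀, star_neg]
    field_simp
    linear_combination -hab
  have h1 : Rch H (a • eb o + b • fb o) (b • fb o) := by
    have := rch_T (h_ee o o) ht (M.he _ ht) (a • eb o + b • fb o)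
    simp only [h_add_left, h_smul_left, h_fe, h_ee, if_true, mul_zero, zero_add, mul_one,
      div_mul_cancel₀ _ hb] at this
    have h3 : a • eb o + b • fb o + -a • eb o = (b • fb o : Ix m r → F) := by module
    rwa [h3] at this
  have h2 : Rch H (b • fb o) (b • fb o + (D.ε * b) • eb o) := by
    have := rch_T (h_ee o o) D.hε (M.he _ D.hε) (b • fb o)
    simp only [h_smul_left, h_fe, if_true, mul_one] at this
    exact this
  have h3 : Rch H (b • fb o + (D.ε * b) • eb o) ((D.ε * b) • eb o) := by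
    have := rch_T (h_ff o o) D.hε.inv.neg (M.hf _ D.hε.inv.neg) (b • fb o + (D.ε * b) • eb o)
    simp only [h_add_left, h_smul_left, h_ff, h_ef, if_true, mul_zero, zero_add, mul_one] at this
    have h4 : -D.ε⁻¹ * (D.ε * b) = -b := by
      rw [← mul_assoc, neg_mul, inv_mul_cancel₀ D.hε0, neg_one_mul]
    have h5 : b • fb o + (D.ε * b) • eb o + -b • fb o = ((D.ε * b) • eb o : Ix m r → F) := by
      module
    rw [h4, h5] at this
    exact this
  exact h1.trans (h2.trans (h3.trans (rch_scale M hio (mul_ne_zero D.hε0 hb))))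

theorem mv_top : Mv o (⊤ : Subgroup (SUg m r F)) where
  he _ _ := Subgroup.mem_top _
  hf _ _ := Subgroup.mem_top _
  hee _ _ _ := Subgroup.mem_top _
  hef _ _ _ := Subgroup.mem_top _
  hfe _ _ _ := Subgroup.mem_top _
  hff _ _ _ := Subgroup.mem_top _

theorem exists_other (h2 : 2 ≤ m) (o : Fin m) : ∃ i : Fin m, i ≠ o := by
  by_cases h : o = ⟨0, by omega⟩
  · exact ⟨⟨1, by omega⟩, by rw [h, Ne, Fin.mk.injEq]; omega⟩
  · exact ⟨⟨0, by omega⟩, Ne.symm h⟩

/-- The unitary group acts transitively on isotropic vectors. -/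
theorem exists_trans (D : Inv2 F) (hr : r ≤ 1) (h2 : 2 ≤ m) (o : Fin m) {x : Ix m r → F}
    (hx : x ≠ 0) (hxx : h x x = 0) : ∃ g : SUg m r F, g.1.1 *ᵥ x = eb o := by
  obtain ⟨i, hio⟩ := exists_other h2 o
  obtain ⟨y, hy, hyo, hyi, -⟩ := rch_red D hr (mv_top (o := o)) hx hxx
  -- kill the z coordinate
  obtain ⟨y', hy', hyo', hyi', hyz'⟩ : ∃ y', Rch ⊤ y y' ∧ y' (Sum.inr (Sum.inr o)) ≠ 0 ∧
      (∀ i, i ≠ o → y' (Sum.inl i) = 0 ∧ y' (Sum.inr (Sum.inr i)) = 0) ∧
      ∀ k, y' (Sum.inr (Sum.inl k)) = 0 := by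
    have hr' : r = 0 ∨ r = 1 := by omega
    rcases hr' with hr' | hr'
    · subst hr'
      exact ⟨y, Rch.refl _ y, hyo, hyi, fun k => absurd k.2 (by omega)⟩
    · subst hr'
      obtain ⟨c, hc⟩ : ∃ c, c = -y (Sum.inr (Sum.inl 0)) / y (Sum.inr (Sum.inr o)) := ⟨_, rfl⟩
      have hok : EiOK (eb o : Ix m 1 → F) (c • zb 0) (-(c * star c) * D.c₀) := by
        refine ⟨h_ee o o, by rw [h_smul_left, h_ze, mul_zero], ?_⟩
        rw [h_smul_left, h_smul_right, h_zz, if_pos rfl, star_mul', star_neg, star_mul', star_star]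
        linear_combination (-c * star c) * D.hc₀
      refine ⟨_, rch_Ei hok (Subgroup.mem_top _) y, ?_, ?_, ?_⟩
      · rw [Pi.add_apply, Pi.add_apply, Pi.smul_apply, Pi.smul_apply, Pi.smul_apply, zb_f, eb_f,
          smul_zero, smul_zero, smul_zero, add_zero, add_zero]
        exact hyo
      · intro i hi
        constructor
        · rw [Pi.add_apply, Pi.add_apply, Pi.smul_apply, Pi.smul_apply, Pi.smul_apply, zb_e, eb_e,
            if_neg (Ne.symm hi), smul_zero, smul_zero, smul_zero, add_zero, add_zero]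
          exact (hyi i hi).1
        · rw [Pi.add_apply, Pi.add_apply, Pi.smul_apply, Pi.smul_apply, Pi.smul_apply, zb_f, eb_f,
            smul_zero, smul_zero, smul_zero, add_zero, add_zero]
          exact (hyi i hi).2
      · intro k
        have hk : k = 0 := Fin.ext (by have := k.2; omega)
        rw [hk, Pi.add_apply, Pi.add_apply, Pi.smul_apply, Pi.smul_apply, Pi.smul_apply, zb_z,
          eb_z, if_pos rfl, smul_zero, add_zero, h_eb, smul_eq_mul, smul_eq_mul, mul_one, hc,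
          mul_div_cancel₀ _ hyo, add_neg_cancel]
  have h3 : y' = y' (Sum.inl o) • eb o + y' (Sum.inr (Sum.inr o)) • fb o := by
    funext a
    rcases a with j | k | j
    · rw [Pi.add_apply, Pi.smul_apply, Pi.smul_apply, eb_e, fb_e, smul_zero, add_zero]
      by_cases hj : j = o
      · rw [hj, if_pos rfl, smul_eq_mul, mul_one]
      · rw [if_neg (Ne.symm hj), smul_zero, (hyi' j hj).1]
    · rw [Pi.add_apply, Pi.smul_apply, Pi.smul_apply, eb_z, fb_z, smul_zero, smul_zero, add_zero,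
        hyz']
    · rw [Pi.add_apply, Pi.smul_apply, Pi.smul_apply, eb_f, fb_f, smul_zero, zero_add]
      by_cases hj : j = o
      · rw [hj, if_pos rfl, smul_eq_mul, mul_one]
      · rw [if_neg (Ne.symm hj), smul_zero, (hyi' j hj).2]
  have h4 : h y' y' = 0 := (hy.trans hy').iso hxx
  set a := y' (Sum.inl o)
  set b := y' (Sum.inr (Sum.inr o))
  have hab : a * star b + b * star a = 0 := by
    rw [h3] at h4
    simp only [h_add_left, h_add_right, h_smul_left, h_smul_right, h_ee, h_ff, h_ef, h_fe, if_true,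
      mul_zero, add_zero, zero_add, mul_one] at h4
    linear_combination h4
  obtain ⟨g, -, hg⟩ := (hy.trans hy').trans (h3 ▸ rch_plane D mv_top hio hyo' hab)
  exact ⟨g, hg⟩

end MP7fQ
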