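import Pool.Agent.Lib.MP_7f581e_ntP.SylCrit
import Pool.Agent.Lib.MP_7f581e_ntQ.Basic
import Pool.Agent.Lib.MP_7f581e_ntG.Gen

/-!
The unitriangular unitary matrices: Sylow subgroup and centre.
-/

set_option autoImplicit false
set_option linter.unusedSectionVars false

namespace MP7fQ

open Matrix Matrix.SpecialLinearGroup MP7fG

variable {F : Type*} [Field F] [StarRing F] {m r : ℕ}

theorem apply_eq (g : SUg m r F) (a b : Ix m r) : g.1.1 a b = (g.1.1 *ᵥ Pi.single b 1) a := by
  rw [Matrix.mulVec_single_one]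
  rfl

theorem h_single (b : Ix m r) (y : Ix m r → F) : h (Pi.single b 1) y = dh y b := by
  rw [h, dotProduct_single_one]

theorem dh_e (y : Ix m r → F) (i : Fin m) : dh y (Sum.inl i) = star (y (Sum.inr (Sum.inr i))) :=
  rfl

theorem dh_z (y : Ix m r → F) (i : Fin r) :
    dh y (Sum.inr (Sum.inl i)) = star (y (Sum.inr (Sum.inl i))) := rfl

theorem dh_f (y : Ix m r → F) (i : Fin m) : dh y (Sum.inr (Sum.inr i)) = star (y (Sum.inl i)) :=
  rfl

theorem Ei_entry {u w : Ix m r → F} {μ : F} (H : EiOK u w μ) (a b : Ix m r) :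
    (Ei u w μ).1.1 a b = (if a = b then 1 else 0) +
      (dh u b * w a + (μ * dh u b - dh w b) * u a) := by
  rw [apply_eq, Ei_mulVec H, Pi.add_apply, Pi.add_apply, Pi.smul_apply, Pi.smul_apply, h_single,
    h_single, Pi.single_apply, smul_eq_mul, smul_eq_mul, add_assoc]

/-- The order of the basis. -/
def se (m r : ℕ) : Ix m r ≃ Fin (m + (r + m)) :=
  (Equiv.sumCongr (Equiv.refl _)
    ((Equiv.sumCongr (Equiv.refl _) Fin.revPerm).trans finSumFinEquiv)).trans finSumFinEquiv

theorem se_e (i : Fin m) : (se m r (Sum.inl i)).val = i.val := by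
  simp [se]

theorem se_z (i : Fin r) : (se m r (Sum.inr (Sum.inl i))).val = m + i.val := by
  simp [se]

theorem se_f (i : Fin m) :
    (se m r (Sum.inr (Sum.inr i))).val = m + (r + (m - (i.val + 1))) := by
  simp [se]

/-- The embedding in the special linear group. -/
def emb (m r : ℕ) (F : Type*) [Field F] [StarRing F] :
    SUg m r F →* SpecialLinearGroup (Fin (m + (r + m))) F where
  toFun g := ⟨Matrix.reindex (se m r) (se m r) g.1.1, by
    rw [Matrix.det_reindex_self]
    exact g.1.2⟩
  map_one' := by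
    apply Subtype.ext
    change Matrix.reindex (se m r) (se m r) 1 = 1
    simp
  map_mul' g h := by
    apply Subtype.ext
    change Matrix.reindex (se m r) (se m r) (g.1.1 * h.1.1) =
      Matrix.reindex (se m r) (se m r) g.1.1 * Matrix.reindex (se m r) (se m r) h.1.1
    simp [Matrix.submatrix_mul_equiv]

theorem emb_apply (g : SUg m r F) (a b : Ix m r) :
    (emb m r F g).1 (se m r a) (se m r b) = g.1.1 a b := by
  change Matrix.reindex (se m r) (se m r) g.1.1 (se m r a) (se m r b) = _
  simp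

theorem emb_injective : Function.Injective (emb m r F) := by
  intro g g' hgh
  apply Subtype.ext
  apply Subtype.ext
  ext a b
  rw [← emb_apply, hgh, emb_apply]

theorem emb_mulVec (g : SUg m r F) (x : Fin (m + (r + m)) → F) (a : Ix m r) :
    ((emb m r F g).1 *ᵥ x) (se m r a) = (g.1.1 *ᵥ (fun b => x (se m r b))) a := by
  rw [Matrix.mulVec, dotProduct, Matrix.mulVec, dotProduct, ← (se m r).sum_comp]
  apply Finset.sum_congr rfl
  intro b _
  rw [emb_apply]

/-- The unitriangular group. -/
def uu (m r : ℕ) (F : Type*) [Field F] [StarRing F] [Finite F] : Subgroup (SUg m r F) :=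
  (ut (m + (r + m)) F).comap (emb m r F)

theorem mem_uu [Finite F] {g : SUg m r F} : g ∈ uu m r F ↔
    ∀ a b, (se m r b).val ≤ (se m r a).val → g.1.1 a b = if a = b then 1 else 0 := by
  constructor
  · intro h a b hab
    have := mem_ut.mp h (se m r a) (se m r b) hab
    rw [emb_apply] at this
    simpa using this
  · intro h
    change emb m r F g ∈ ut (m + (r + m)) F
    rw [mem_ut]
    intro a b hab
    have := h ((se m r).symm a) ((se m r).symm b) (by simpa using hab)
    rw [← emb_apply] at this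
    simpa using this

theorem T_mem_uu [Finite F] (i : Fin m) {t : F} (ht : Tz t) : T (eb i) t ∈ uu m r F := by
  rw [mem_uu]
  intro a b hab
  have hi := i.2
  rw [T, Ei_entry (T_ok (h_ee i i) ht)]
  suffices H : dh (eb i) b * (0 : Ix m r → F) a + (t * dh (eb i) b - dh 0 b) * eb i a = 0 by
    rw [H, add_zero]
  have h0 : dh (0 : Ix m r → F) b = 0 := by
    rcases b with b | b | b <;> exact star_zero F
  rw [h0, Pi.zero_apply, mul_zero, zero_add, sub_zero]
  rcases a with a | a | a
  · rcases b with b | b | b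
    · rw [dh_e, eb_f, star_zero, mul_zero, zero_mul]
    · rw [dh_z, eb_z, star_zero, mul_zero, zero_mul]
    · rw [se_e, se_f] at hab
      have hb := b.2
      rw [dh_f, eb_e, eb_e]
      by_cases h1 : i = b
      · by_cases h2 : i = a
        · subst h1; subst h2; omega
        · rw [if_neg h2, mul_zero]
      · rw [if_neg h1, star_zero, mul_zero, zero_mul]
  · rw [eb_z, mul_zero]
  · rw [eb_f, mul_zero]

theorem X_ok {i k : Fin m} (hik : i ≠ k) (c : F) :
    EiOK (eb i : Ix m r → F) (c • fb k) 0 := by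
  refine ⟨h_ee i i, ?_, ?_⟩
  · rw [h_smul_left, h_fe, if_neg hik.symm, mul_zero]
  · rw [h_smul_left, h_smul_right, h_ff, star_zero]
    ring

theorem X_mem_uu [Finite F] {i k : Fin m} (hik : i < k) (c : F) :
    Ei (eb i) (c • fb k) 0 ∈ uu m r F := by
  rw [mem_uu]
  intro a b hab
  have hi := i.2
  have hk := k.2
  have hlt : i.val < k.val := hik
  rw [Ei_entry (X_ok hik.ne c)]
  suffices H : dh (eb i) b * (c • fb k : Ix m r → F) a = 0 ∧
      dh (c • fb k) b * (eb i : Ix m r → F) a = 0 by
    rw [H.1, sub_mul, H.2, zero_mul, zero_mul, zero_add, sub_zero, add_zero]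
  constructor
  · rw [Pi.smul_apply, smul_eq_mul]
    rcases a with a | a | a
    · rw [fb_e, mul_zero, mul_zero]
    · rw [fb_z, mul_zero, mul_zero]
    · rcases b with b | b | b
      · rw [dh_e, eb_f, star_zero, zero_mul]
      · rw [dh_z, eb_z, star_zero, zero_mul]
      · rw [se_f, se_f] at hab
        have ha := a.2
        have hb := b.2
        rw [dh_f, eb_e, fb_f]
        by_cases h1 : i = b
        · by_cases h2 : k = a
          · subst h1; subst h2; omega
          · rw [if_neg h2, mul_zero, mul_zero]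
        · rw [if_neg h1, star_zero, zero_mul]
  · rcases a with a | a | a
    · rcases b with b | b | b
      · rw [se_e, se_e] at hab
        rw [dh_e, Pi.smul_apply, fb_f, eb_e]
        by_cases h1 : i = a
        · by_cases h2 : k = b
          · subst h1; subst h2; omega
          · rw [if_neg h2, smul_zero, star_zero, zero_mul]
        · rw [if_neg h1, mul_zero]
      · rw [dh_z, Pi.smul_apply, fb_z, smul_zero, star_zero, zero_mul]
      · rw [dh_f, Pi.smul_apply, fb_e, smul_zero, star_zero, zero_mul]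
    · rw [eb_z, mul_zero]
    · rw [eb_f, mul_zero]

theorem Z_ok (i : Fin m) (k : Fin r) {μ : F} (hμ : μ + star μ = -1) :
    EiOK (eb i : Ix m r → F) (zb k) μ := by
  refine ⟨h_ee i i, h_ze k i, ?_⟩
  rw [h_zz, if_pos rfl, hμ, neg_add_cancel]

theorem Z_mem_uu [Finite F] (i : Fin m) (k : Fin r) {μ : F} (hμ : μ + star μ = -1) :
    Ei (eb i) (zb k) μ ∈ uu m r F := by
  rw [mem_uu]
  intro a b hab
  have hi := i.2
  have hk := k.2
  rw [Ei_entry (Z_ok i k hμ)]
  suffices H : dh (eb i) b * (zb k : Ix m r → F) a = 0 ∧ dh (zb k) b * (eb i : Ix m r → F) a = 0 ∧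
      dh (eb i) b * (eb i : Ix m r → F) a = 0 by
    rw [H.1, sub_mul, H.2.1, mul_assoc, H.2.2, mul_zero, zero_add, sub_zero, add_zero]
  refine ⟨?_, ?_, ?_⟩
  · rcases a with a | a | a
    · rw [zb_e, mul_zero]
    · rcases b with b | b | b
      · rw [dh_e, eb_f, star_zero, zero_mul]
      · rw [dh_z, eb_z, star_zero, zero_mul]
      · rw [se_f, se_z] at hab
        have ha := a.2
        exfalso; omega
    · rw [zb_f, mul_zero]
  · rcases a with a | a | a
    · rcases b with b | b | b
      · rw [dh_e, zb_f, star_zero, zero_mul]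
      · rw [se_e, se_z] at hab
        have ha := a.2
        exfalso; omega
      · rw [dh_f, zb_e, star_zero, zero_mul]
    · rw [eb_z, mul_zero]
    · rw [eb_f, mul_zero]
  · rcases a with a | a | a
    · rcases b with b | b | b
      · rw [dh_e, eb_f, star_zero, zero_mul]
      · rw [dh_z, eb_z, star_zero, zero_mul]
      · rw [se_f, se_e] at hab
        have ha := a.2
        exfalso; omega
    · rw [eb_z, mul_zero]
    · rw [eb_f, mul_zero]

/-- Data of the involution: elements of trace zero and of trace one, and an element which is not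
fixed. -/
structure Inv2 (F : Type*) [Field F] [StarRing F] where
  /-- an element of trace zero -/
  ε : F
  hε : Tz ε
  hε0 : ε ≠ 0
  /-- an element of trace one -/
  c₀ : F
  hc₀ : c₀ + star c₀ = 1
  /-- an element which is not fixed -/
  y : F
  hy : star y ≠ y

theorem exists_inv2 (H : ∃ y : F, star y ≠ y) : Nonempty (Inv2 F) := by
  obtain ⟨y, hy⟩ := H
  have h1 : ∃ y : F, y + star y ≠ 0 := by
    by_contra hcon
    push Not at hcon
    have h2 := hcon 1
    rw [star_one] at h2
    have h3 := hcon y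
    exact hy (by linear_combination h3 - y * h2)
  obtain ⟨u, hu⟩ := h1
  refine ⟨⟨y - star y, ?_, sub_ne_zero.mpr (Ne.symm hy), u / (u + star u), ?_, y, hy⟩⟩
  · rw [Tz, star_sub, star_star]
    ring
  · rw [star_div₀, star_add, star_star, add_comm (star u) u, ← add_div, div_self hu]

variable (D : Inv2 F)

theorem rich [Finite F] (hr : r ≤ 1) (D : Inv2 F) (j : ℕ) (x : Fin (m + (r + m)) → F)
    (h : ∀ g ∈ (ut (m + (r + m)) F).comap (emb m r F), ∀ a : Fin (m + (r + m)), j ≤ a.val →
      ((emb m r F g).1 *ᵥ x) a = x a) (a : Fin (m + (r + m))) (ha : j < a.val) : x a = 0 := by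
  have key : ∀ g ∈ uu m r F, ∀ b : Ix m r, j ≤ (se m r b).val →
      (g.1.1 *ᵥ (fun b => x (se m r b))) b = x (se m r b) := by
    intro g hg b hb
    rw [← emb_mulVec]
    exact h g hg _ hb
  obtain ⟨b, rfl⟩ := (se m r).surjective a
  obtain ⟨y, hy⟩ : ∃ y : Ix m r → F, y = fun b => x (se m r b) := ⟨_, rfl⟩
  rw [← hy] at key
  have hyx : ∀ b, x (se m r b) = y b := fun b => by rw [hy]
  simp only [hyx] at key
  rw [hyx]
  -- coordinates z
  have hzf : ∀ (i : Fin m) (k : Fin r), j ≤ (se m r (Sum.inr (Sum.inl k))).val →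
      y (Sum.inr (Sum.inr i)) = 0 := by
    intro i k hk
    have hμ : (-D.c₀) + star (-D.c₀) = -1 := by
      rw [star_neg]; linear_combination -D.hc₀
    have h1 := key _ (Z_mem_uu i k hμ) _ hk
    rw [Ei_mulVec (Z_ok i k hμ), Pi.add_apply, Pi.add_apply, Pi.smul_apply, Pi.smul_apply, zb_z,
      if_pos rfl, eb_z, h_eb, smul_zero, add_zero, smul_eq_mul, mul_one] at h1
    exact add_eq_left.mp h1
  rcases b with i | k | i
  · rw [se_e] at ha
    have hlt : (⟨i.val - 1, by omega⟩ : Fin m) < i := by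
      rw [Fin.lt_def]; simp only; omega
    have h1 := key _ (X_mem_uu hlt 1) (Sum.inl ⟨i.val - 1, by omega⟩) (by
      rw [se_e]; simp only; omega)
    rw [Ei_mulVec (X_ok hlt.ne 1), Pi.add_apply, Pi.add_apply, Pi.smul_apply, Pi.smul_apply,
      Pi.smul_apply, eb_e, fb_e, if_pos rfl, one_smul, one_smul, h_fb, smul_zero, zero_mul,
      zero_sub, smul_eq_mul, mul_one, add_zero] at h1
    exact neg_eq_zero.mp (add_eq_left.mp h1)
  · -- z coordinates
    rw [se_z] at ha
    have hk := k.2
    have hm : 0 < m ∨ m = 0 := by omega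
    rcases hm with hm | hm
    · have hμ : (-D.c₀) + star (-D.c₀) = -1 := by
        rw [star_neg]; linear_combination -D.hc₀
      have h0 := hzf ⟨m - 1, by omega⟩ k (by rw [se_z]; omega)
      have h1 := key _ (Z_mem_uu ⟨m - 1, by omega⟩ k hμ) (Sum.inl ⟨m - 1, by omega⟩) (by
        rw [se_e]; simp only; omega)
      rw [Ei_mulVec (Z_ok _ k hμ), Pi.add_apply, Pi.add_apply, Pi.smul_apply, Pi.smul_apply, zb_e,
        eb_e, if_pos rfl, h_eb, h0, h_zb, smul_zero, mul_zero, zero_sub, add_zero, smul_eq_mul,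
        mul_one] at h1
      exact neg_eq_zero.mp (add_eq_left.mp h1)
    · omega
  · rw [se_f] at ha
    have hi := i.2
    by_cases hi1 : i.val + 1 = m
    · have hr' : r = 0 ∨ r = 1 := by omega
      rcases hr' with hr' | hr'
      · have h1 := key _ (T_mem_uu i D.hε) (Sum.inl i) (by rw [se_e]; omega)
        rw [T_mulVec (h_ee i i) D.hε, Pi.add_apply, Pi.smul_apply, eb_e, if_pos rfl, h_eb,
          smul_eq_mul, mul_one] at h1
        exact (mul_eq_zero.mp (add_eq_left.mp h1)).resolve_left D.hε0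
      · exact hzf i ⟨0, by omega⟩ (by rw [se_z]; simp only; omega)
    · have hlt : i < (⟨i.val + 1, by omega⟩ : Fin m) := by
        rw [Fin.lt_def]; simp only; omega
      have h1 := key _ (X_mem_uu hlt 1) (Sum.inr (Sum.inr ⟨i.val + 1, by omega⟩)) (by
        rw [se_f]; simp only; omega)
      rw [Ei_mulVec (X_ok hlt.ne 1), Pi.add_apply, Pi.add_apply, Pi.smul_apply, Pi.smul_apply,
        Pi.smul_apply, eb_f, fb_f, if_pos rfl, one_smul, h_eb, smul_zero, add_zero, smul_eq_mul,
        mul_one] at h1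
      exact add_eq_left.mp h1

theorem exists_sylow [Finite F] (hr : r ≤ 1) (D : Inv2 F) {p : ℕ} [hp : Fact p.Prime]
    [CharP F p] : ∃ P : Sylow p (SUg m r F), (P : Subgroup (SUg m r F)) = uu m r F :=
  MP7fP.sylow_crit (emb m r F) emb_injective fun j x _ h a ha => rich hr D j x h a ha

/-- The centre of the unitriangular group. -/
theorem centre_uu [Finite F] (hr : r ≤ 1) (D : Inv2 F) (h2 : 2 ≤ m) {g : SUg m r F}
    (hg : g ∈ uu m r F) (hc : ∀ u ∈ uu m r F, g * u * g⁻¹ = u) :
    ∃ t : F, Tz t ∧ g = T (eb ⟨0, by omega⟩) t := by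
  set i0 : Fin m := ⟨0, by omega⟩ with hi0
  set i1 : Fin m := ⟨1, by omega⟩ with hi1
  have h01 : i0 < i1 := by rw [Fin.lt_def]; simp [hi0, hi1]
  have he : ∀ i, g.1.1 *ᵥ eb i = eb i := by
    intro i
    have h1 := hc _ (T_mem_uu i D.hε)
    rw [conj_T] at h1
    have h3 : (g.1.1 *ᵥ eb i) (Sum.inl i) = 1 := by
      have := mem_uu.mp hg (Sum.inl i) (Sum.inl i) le_rfl
      rwa [apply_eq, if_pos rfl] at this
    obtain ⟨c, -, hc1, -⟩ := T_eq (mulVec_ne_zero g (eb_ne_zero i)) (by rw [h_mulVec, h_ee])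
      (h_ee i i) D.hε0 D.hε D.hε h1
    rw [hc1, Pi.smul_apply, eb_e, if_pos rfl, smul_eq_mul, mul_one] at h3
    rw [hc1, h3, one_smul]
  have hinf : ∀ x i, (g.1.1 *ᵥ x) (Sum.inr (Sum.inr i)) = x (Sum.inr (Sum.inr i)) := by
    intro x i
    have := h_mulVec g x (eb i)
    rwa [he, h_eb, h_eb] at this
  have hf : ∀ k : Fin m, i0 < k → g.1.1 *ᵥ fb k = fb k := by
    intro k hik
    obtain ⟨w, hw⟩ : ∃ w, w = g.1.1 *ᵥ fb k - fb k := ⟨_, rfl⟩
    have hgw : g.1.1 *ᵥ fb k = fb k + w := by rw [hw]; abel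
    have hwe : h w (eb i0) = 0 := by
      rw [hw, h_sub_left, h_eb, h_eb, hinf, sub_self]
    have h3 : ∀ (c : F) x, (c * h x (eb i0)) • w = (star c * h x w) • eb i0 := by
      intro c x
      have h1 := hc _ (X_mem_uu hik c)
      rw [conj_Ei, he, Matrix.mulVec_smul, hgw] at h1
      have h4 : (Ei (eb i0) (c • (fb k + w)) 0).1.1 *ᵥ x = (Ei (eb i0) (c • fb k) 0).1.1 *ᵥ x := by
        rw [h1]
      have hok : EiOK (eb i0 : Ix m r → F) (c • (fb k + w)) 0 := by
        rw [← hgw, ← Matrix.mulVec_smul, ← he i0]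
        exact (EiOK.conj g).mpr (X_ok hik.ne c)
      rw [Ei_mulVec hok, Ei_mulVec (X_ok hik.ne c)] at h4
      simp only [smul_add, h_add_right, h_smul_right, zero_mul, zero_sub] at h4
      have h5 := sub_eq_zero.mpr h4
      rw [← sub_eq_zero, ← h5]
      module
    have h4 := h3 1 (fb i0)
    rw [h_fe, if_pos rfl, star_one, one_mul, one_mul, one_smul] at h4
    set β := h (fb i0) w with hβ
    have h5 : β = star β := by
      conv_lhs => rw [hβ, h4, h_smul_right, h_fe, if_pos rfl, mul_one]
    have h6 := h3 D.y (fb i0)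
    rw [h_fe, if_pos rfl, mul_one, ← hβ, h4, smul_smul] at h6
    have h7 := congrFun h6 (Sum.inl i0)
    rw [Pi.smul_apply, Pi.smul_apply, eb_e, if_pos rfl, smul_eq_mul, smul_eq_mul, mul_one,
      mul_one] at h7
    have h8 : β = 0 := by
      have h9 : (star D.y - D.y) * β = 0 := by linear_combination -h7
      exact (mul_eq_zero.mp h9).resolve_left (sub_ne_zero.mpr D.hy)
    rw [hgw, h4, h8, zero_smul, add_zero]
  have hinl : ∀ x, ∀ k : Fin m, i0 < k → (g.1.1 *ᵥ x) (Sum.inl k) = x (Sum.inl k) := by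
    intro x k hk
    have := h_mulVec g x (fb k)
    rwa [hf k hk, h_fb, h_fb] at this
  have hz : ∀ k : Fin r, g.1.1 *ᵥ zb k = zb k := by
    intro k
    have hk := k.2
    have h3 : g.1.1 *ᵥ zb k = zb k + h (g.1.1 *ᵥ zb k) (fb i0) • eb i0 := by
      apply eq_of_h
      · intro i
        rw [h_eb, hinf, h_add_left, h_smul_left, h_ee, mul_zero, add_zero, h_eb]
      · intro i
        have hki : i = k := by
          apply Fin.ext
          have := i.2
          omega
        rw [hki, h_add_left, h_smul_left, h_ez, mul_zero, add_zero, h_zz, if_pos rfl, h_zb]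
        have := mem_uu.mp hg (Sum.inr (Sum.inl k)) (Sum.inr (Sum.inl k)) le_rfl
        rwa [apply_eq, if_pos rfl] at this
      · intro i
        by_cases hi : i = i0
        · rw [hi, h_add_left, h_smul_left, h_ef, if_pos rfl, mul_one, h_zf, zero_add]
        · have hi' : i0 < i := by
            rw [Fin.lt_def, hi0]
            simp only
            have : i.val ≠ 0 := fun h0 => hi (Fin.ext h0)
            omega
          rw [h_fb, hinl _ i hi', h_add_left, h_smul_left, h_ef, if_neg (Ne.symm hi), mul_zero,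
            add_zero, h_fb]
    set γ := h (g.1.1 *ᵥ zb k) (fb i0) with hγ
    have hμ : (-D.c₀) + star (-D.c₀) = -1 := by
      rw [star_neg]; linear_combination -D.hc₀
    have h4 := hc _ (Z_mem_uu i1 k hμ)
    rw [conj_Ei, he, h3] at h4
    have hok : EiOK (eb i1 : Ix m r → F) (zb k + γ • eb i0) (-D.c₀) := by
      rw [← h3, ← he i1]
      exact (EiOK.conj g).mpr (Z_ok i1 k hμ)
    have h5 : (Ei (eb i1) (zb k + γ • eb i0) (-D.c₀)).1.1 *ᵥ fb i1 =
        (Ei (eb i1) (zb k) (-D.c₀)).1.1 *ᵥ fb i1 := by rw [h4]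
    rw [Ei_mulVec hok, Ei_mulVec (Z_ok i1 k hμ), h_add_right, h_smul_right, h_fe, h_fe,
      if_pos rfl, if_neg h01.ne', mul_zero, add_zero, one_smul, one_smul] at h5
    have h6 := add_right_cancel h5
    have h7 := add_left_cancel h6
    rw [h3, h7]
  -- the vector `f_0`
  set t := h (g.1.1 *ᵥ fb i0) (fb i0) with ht
  have hf0 : g.1.1 *ᵥ fb i0 = fb i0 + t • eb i0 := by
    apply eq_of_h
    · intro i
      rw [h_eb, hinf, h_add_left, h_smul_left, h_ee, mul_zero, add_zero, h_eb]
    · intro i
      rw [← hz i, h_mulVec, h_fz, hz i, h_add_left, h_smul_left, h_ez, h_fz, mul_zero, add_zero]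
    · intro i
      by_cases hi : i = i0
      · rw [hi, h_add_left, h_smul_left, h_ef, if_pos rfl, mul_one, h_ff, zero_add]
      · have hi' : i0 < i := by
          rw [Fin.lt_def, hi0]
          simp only
          have : i.val ≠ 0 := fun h0 => hi (Fin.ext h0)
          omega
        rw [h_fb, hinl _ i hi', h_add_left, h_smul_left, h_ef, if_neg (Ne.symm hi), mul_zero,
          add_zero, h_fb]
  have htz : Tz t := by
    have h3 : h (g.1.1 *ᵥ fb i0) (g.1.1 *ᵥ fb i0) = 0 := by rw [h_mulVec, h_ff]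
    rw [hf0] at h3
    simp only [h_add_left, h_add_right, h_smul_left, h_smul_right, h_ff, h_ee, h_ef, h_fe,
      if_true, mul_zero, add_zero, zero_add, mul_one] at h3
    unfold Tz
    linear_combination h3
  refine ⟨t, htz, ?_⟩
  apply su_ext
  intro x
  rw [T_mulVec (h_ee _ _) htz]
  apply eq_of_h
  · intro i
    rw [h_eb, hinf, h_add_left, h_smul_left, h_ee, mul_zero, add_zero, h_eb]
  · intro i
    rw [h_add_left, h_smul_left, h_ez, mul_zero, add_zero, ← h_mulVec g x (zb i), hz]
  · intro i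
    by_cases hi : i = i0
    · have h3 : fb i0 = g.1.1 *ᵥ fb i0 - t • eb i0 := by rw [hf0]; abel
      have h4 : h (g.1.1 *ᵥ x) (fb i0) = h x (fb i0) + t * h x (eb i0) := by
        conv_lhs => rw [h3]
        rw [h_sub_right, h_mulVec, h_smul_right]
        have h5 : h (g.1.1 *ᵥ x) (eb i0) = h x (eb i0) := by
          conv_lhs => rw [← he i0]
          exact h_mulVec g x (eb i0)
        rw [h5, htz.star_eq]
        ring
      rw [hi, h4, h_add_left, h_smul_left, h_ef, if_pos rfl, mul_one]
    · have hi' : i0 < i := by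
        rw [Fin.lt_def, hi0]
        simp only
        have : i.val ≠ 0 := fun h0 => hi (Fin.ext h0)
        omega
      rw [h_fb, hinl _ i hi', h_add_left, h_smul_left, h_ef, if_neg (Ne.symm hi), mul_zero,
        add_zero, h_fb]

/-- The transvections `T e₀ t` are central in the unitriangular group. -/
theorem T_centre_uu [Finite F] (h0 : 0 < m) {g : SUg m r F} (hg : g ∈ uu m r F) (t : F) :
    g * T (eb ⟨0, h0⟩) t * g⁻¹ = T (eb ⟨0, h0⟩) t := by
  rw [conj_T]
  congr 1
  funext a
  have h1 := mem_uu.mp hg a (Sum.inl ⟨0, h0⟩) (by rw [se_e]; exact Nat.zero_le _)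
  rw [apply_eq] at h1
  change (g.1.1 *ᵥ eb ⟨0, h0⟩) a = _ at h1
  rw [h1, eb, Pi.single_apply]

end MP7fQ
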